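import Pool.Agent.Helper36.LX.Sheet

/-! Row GV of LX: exponentially many almost orthonormal vectors. -/

set_option autoImplicit false

namespace H11ST
namespace LX
open LG Finset

/-- the sign of a bit -/
def gvs (b : Bool) : ℝ := if b then 1 else -1

theorem gvs_sq (b : Bool) : gvs b * gvs b = 1 := by cases b <;> simp [gvs]

theorem gvs_beq (a b : Bool) : gvs (a == b) = gvs a * gvs b := by
  cases a <;> cases b <;> simp [gvs]

/-- the correlation -/
def gvG {d : ℕ} (x y : Fin d → Bool) : ℝ := ∑ i, gvs (x i) * gvs (y i)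

theorem gvG_self {d : ℕ} (x : Fin d → Bool) : gvG x x = d := by
  simp [gvG, gvs_sq]

theorem gvG_comm {d : ℕ} (x y : Fin d → Bool) : gvG x y = gvG y x := by
  unfold gvG
  exact Finset.sum_congr rfl fun i _ => mul_comm _ _

theorem gv_moment (d : ℕ) (s : ℝ) :
    ∑ z : Fin d → Bool, Real.exp (s * ∑ i, gvs (z i)) ≤ 2 ^ d * Real.exp (s ^ 2 / 2 * d) := by
  have h1 : ∀ z : Fin d → Bool, Real.exp (s * ∑ i, gvs (z i)) = ∏ i, Real.exp (s * gvs (z i)) := by
    intro z
    rw [Finset.mul_sum, Real.exp_sum]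
  have h2 : ∑ z : Fin d → Bool, ∏ i, Real.exp (s * gvs (z i)) =
      ∏ _i : Fin d, ∑ b : Bool, Real.exp (s * gvs b) := by
    rw [Finset.prod_univ_sum, Fintype.piFinset_univ]
  rw [Finset.sum_congr rfl fun z _ => h1 z, h2, Finset.prod_const, Finset.card_univ,
    Fintype.card_fin]
  have h3 : ∑ b : Bool, Real.exp (s * gvs b) = 2 * Real.cosh s := by
    rw [Fintype.sum_bool, Real.cosh_eq]
    simp [gvs]
    ring
  rw [h3, mul_pow]
  have h4 : Real.cosh s ^ d ≤ Real.exp (s ^ 2 / 2) ^ d :=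
    pow_le_pow_left₀ (Real.cosh_pos s).le (Real.cosh_le_exp_half_sq s) d
  rw [← Real.exp_nat_mul, mul_comm (d : ℝ)] at h4
  exact mul_le_mul_of_nonneg_left h4 (by positivity)

open Classical in
theorem gv_tail (d : ℕ) (s : ℝ) (hs : 0 ≤ s) :
    (((Finset.univ : Finset (Fin d → Bool)).filter (fun z => s * d < |∑ i, gvs (z i)|)).card : ℝ) ≤
      2 * 2 ^ d * Real.exp (-(s ^ 2 / 2 * d)) := by
  have h1 := gv_moment d s
  have h2 := gv_moment d (-s)
  rw [neg_sq] at h2
  set B := (Finset.univ : Finset (Fin d → Bool)).filter (fun z => s * d < |∑ i, gvs (z i)|)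
  have h3 : (B.card : ℝ) * Real.exp (s ^ 2 * d) ≤
      ∑ z : Fin d → Bool, (Real.exp (s * ∑ i, gvs (z i)) + Real.exp (-s * ∑ i, gvs (z i))) := by
    have h4 : (B.card : ℝ) * Real.exp (s ^ 2 * d) ≤
        ∑ z ∈ B, (Real.exp (s * ∑ i, gvs (z i)) + Real.exp (-s * ∑ i, gvs (z i))) := by
      rw [← nsmul_eq_mul]
      apply Finset.card_nsmul_le_sum
      intro z hz
      have h5 := (Finset.mem_filter.1 hz).2
      have h6 : s ^ 2 * d ≤ s * |∑ i, gvs (z i)| := by nlinarith
      rcases abs_cases (∑ i, gvs (z i)) with ⟨h7, _⟩ | ⟨h7, _⟩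
      · rw [h7] at h6
        have := Real.exp_le_exp.2 h6
        have := Real.exp_pos (-s * ∑ i, gvs (z i))
        linarith
      · rw [h7] at h6
        have h8 : s ^ 2 * d ≤ -s * ∑ i, gvs (z i) := by linarith
        have := Real.exp_le_exp.2 h8
        have := Real.exp_pos (s * ∑ i, gvs (z i))
        linarith
    refine h4.trans (Finset.sum_le_sum_of_subset_of_nonneg (Finset.subset_univ _) ?_)
    intro z _ _
    positivity
  rw [Finset.sum_add_distrib] at h3
  have h5 : (B.card : ℝ) * Real.exp (s ^ 2 * d) ≤ 2 * 2 ^ d * Real.exp (s ^ 2 / 2 * d) := by linarith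
  have h6 : Real.exp (s ^ 2 * d) = Real.exp (s ^ 2 / 2 * d) * Real.exp (s ^ 2 / 2 * d) := by
    rw [← Real.exp_add]; congr 1; ring
  have h7 := Real.exp_pos (s ^ 2 / 2 * d)
  rw [h6, ← mul_assoc] at h5
  have h8 : (B.card : ℝ) * Real.exp (s ^ 2 / 2 * d) ≤ 2 * 2 ^ d := le_of_mul_le_mul_right h5 h7
  rw [Real.exp_neg, ← div_eq_mul_inv, le_div_iff₀ h7]
  exact h8

open Classical in
theorem gv_greedy (d : ℕ) (hd : 1 ≤ d) (s : ℝ) (hs : 0 ≤ s) (hs1 : s < 1) :
    ∃ Q : Finset (Fin d → Bool), (∀ x ∈ Q, ∀ y ∈ Q, x ≠ y → |gvG x y| ≤ s * d) ∧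
      Real.exp (s ^ 2 / 2 * d) / 2 ≤ Q.card := by
  obtain ⟨P, hP⟩ : ∃ P : Finset (Fin d → Bool) → Prop, P = fun Q =>
    ∀ x ∈ Q, ∀ y ∈ Q, x ≠ y → |gvG x y| ≤ s * d := ⟨_, rfl⟩
  have hne : ((Finset.univ : Finset (Finset (Fin d → Bool))).filter P).Nonempty :=
    ⟨∅, by rw [Finset.mem_filter]; exact ⟨Finset.mem_univ _, by rw [hP]; simp⟩⟩
  obtain ⟨Q, hQ, hmax⟩ := Finset.exists_max_image _ (fun Q => Q.card) hne
  rw [Finset.mem_filter] at hQ
  have hQP := hQ.2
  rw [hP] at hQP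
  have hdr : (0 : ℝ) < d := by exact_mod_cast hd
  refine ⟨Q, hQP, ?_⟩
  have hcov : ∀ x : Fin d → Bool, ∃ y ∈ Q, s * d < |gvG x y| := by
    intro x
    by_cases hx : x ∈ Q
    · refine ⟨x, hx, ?_⟩
      rw [gvG_self, abs_of_pos hdr]
      nlinarith
    · by_contra hcon
      push Not at hcon
      have h1 : P (insert x Q) := by
        rw [hP]
        intro a ha b hb hab
        rw [Finset.mem_insert] at ha hb
        rcases ha with rfl | ha <;> rcases hb with rfl | hb
        · exact absurd rfl hab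
        · exact hcon b hb
        · rw [gvG_comm]; exact hcon a ha
        · exact hQP a ha b hb hab
      have h2 := hmax (insert x Q) (by rw [Finset.mem_filter]; exact ⟨Finset.mem_univ _, h1⟩)
      simp only [Finset.card_insert_of_notMem hx] at h2
      omega
  let B := (Finset.univ : Finset (Fin d → Bool)).filter (fun z => s * d < |∑ i, gvs (z i)|)
  have hB := gv_tail d s hs
  have hsub : (Finset.univ : Finset (Fin d → Bool)) ⊆
      Q.biUnion (fun y => B.image (fun z i => (z i == y i))) := by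
    intro x _
    obtain ⟨y, hy, hxy⟩ := hcov x
    rw [Finset.mem_biUnion]
    refine ⟨y, hy, Finset.mem_image.2 ⟨fun i => (x i == y i), ?_, ?_⟩⟩
    · rw [Finset.mem_filter]
      refine ⟨Finset.mem_univ _, ?_⟩
      have h1 : ∑ i, gvs (x i == y i) = gvG x y :=
        Finset.sum_congr rfl fun i _ => gvs_beq _ _
      rw [h1]
      exact hxy
    · funext i
      have h2 : ∀ a b : Bool, ((a == b) == b) = a := by decide
      exact h2 (x i) (y i)
  have hcard : 2 ^ d ≤ Q.card * B.card := by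
    have h1 : (Finset.univ : Finset (Fin d → Bool)).card = 2 ^ d := by
      rw [Finset.card_univ, Fintype.card_pi]
      simp
    rw [← h1]
    refine (Finset.card_le_card hsub).trans (Finset.card_biUnion_le.trans ?_)
    rw [← smul_eq_mul, ← Finset.sum_const]
    exact Finset.sum_le_sum fun y _ => Finset.card_image_le
  have hcr : (2 : ℝ) ^ d ≤ Q.card * B.card := by exact_mod_cast hcard
  have h2 : (2 : ℝ) ^ d ≤ Q.card * (2 * 2 ^ d * Real.exp (-(s ^ 2 / 2 * d))) :=
    hcr.trans (mul_le_mul_of_nonneg_left hB (by positivity))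
  have h7 := Real.exp_pos (s ^ 2 / 2 * d)
  rw [Real.exp_neg] at h2
  have h3 : (2 : ℝ) ^ d * Real.exp (s ^ 2 / 2 * d) ≤ Q.card * (2 * 2 ^ d) := by
    have h4 := mul_le_mul_of_nonneg_right h2 h7.le
    have h5 : (Q.card : ℝ) * (2 * 2 ^ d * (Real.exp (s ^ 2 / 2 * d))⁻¹) * Real.exp (s ^ 2 / 2 * d) =
        Q.card * (2 * 2 ^ d) := by
      field_simp
    rw [h5] at h4
    exact h4
  have h6 : (0 : ℝ) < 2 ^ d := by positivity
  have h8 : (2 : ℝ) ^ d * Real.exp (s ^ 2 / 2 * d) ≤ 2 ^ d * (2 * Q.card) := by linarith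
  have h9 := le_of_mul_le_mul_left h8 h6
  linarith

theorem gv : LX_GV := by
  intro d hd
  obtain ⟨Q, hQ, hc⟩ := gv_greedy d hd e0 (by unfold e0; norm_num) (by unfold e0; norm_num)
  have hdr : (0 : ℝ) < d := by exact_mod_cast hd
  have hsd : 0 < Real.sqrt d := Real.sqrt_pos.2 hdr
  let f : Fin Q.card → (Fin d → Bool) := fun i => (Q.equivFin.symm i : Fin d → Bool)
  have hfQ : ∀ i, f i ∈ Q := fun i => (Q.equivFin.symm i).2
  have hfi : ∀ i j, i ≠ j → f i ≠ f j := by
    intro i j hij h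
    exact hij (Q.equivFin.symm.injective (Subtype.ext h))
  let p : Fin Q.card → E d := fun i => WithLp.toLp 2 (fun k => gvs (f i k) / Real.sqrt d)
  have hin : ∀ i j, inner ℝ (p i) (p j) = gvG (f i) (f j) / d := by
    intro i j
    rw [PiLp.inner_apply]
    have h1 : ∀ k : Fin d, inner ℝ ((p i) k) ((p j) k) = gvs (f i k) * gvs (f j k) / d := by
      intro k
      show inner ℝ (gvs (f i k) / Real.sqrt d) (gvs (f j k) / Real.sqrt d) = _
      rw [real_inner_eq_re_inner, RCLike.inner_apply]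
      simp only [conj_trivial]
      have h2 : Real.sqrt d * Real.sqrt d = d := Real.mul_self_sqrt hdr.le
      show gvs (f j k) / Real.sqrt d * (gvs (f i k) / Real.sqrt d) = _
      rw [div_mul_div_comm, h2, mul_comm (gvs (f j k))]
    rw [Finset.sum_congr rfl fun k _ => h1 k, ← Finset.sum_div]
    rfl
  refine ⟨Q.card, p, ⟨fun i => ?_, fun i j hij => ?_⟩, ?_⟩
  · have h1 := hin i i
    rw [gvG_self, div_self hdr.ne', real_inner_self_eq_norm_sq] at h1
    have h2 : (‖p i‖ - 1) * (‖p i‖ + 1) = 0 := by nlinarith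
    rcases mul_eq_zero.1 h2 with h3 | h3
    · linarith
    · have := norm_nonneg (p i)
      linarith
  · rw [hin, abs_div, abs_of_pos hdr, div_le_iff₀ hdr]
    exact hQ _ (hfQ i) _ (hfQ j) (hfi i j hij)
  · exact hc

end LX
end H11ST
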